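import Pool.Agent.helper56.NZ.Spec
import Pool.Agent.helper43.HY.GRO
import Pool.Agent.helper81.HY.CLO

/-! Project nz:, module LAM (the set of the points whose orbits stay away from `0` has area zero). -/

set_option autoImplicit false

open Complex Metric Set Filter Topology MeasureTheory
open Pool.Agent.helper98.ILF Pool.Agent.helper16.Multibrot
open HY (UD T S hd UN RM VV SG Orb fz)

noncomputable section

namespace NZ

/-- the derivative of `u ↦ φ (S a (u / 16))` at `0`. -/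
theorem LAM_der (hHDI : HY.HDI_stmt) (φ : ℂ → ℂ) (hφ : DifferentiableOn ℂ φ UD) (a : ℂ) (ha : a ∈ UD) :
    ‖deriv (fun u => φ (S a (u / 16))) 0‖ = ‖deriv φ a‖ * (1 - ‖a‖ ^ 2) / 16 := by
  obtain ⟨_, _, h3⟩ := hHDI
  obtain ⟨hUN, hS0, hhd, _⟩ := h3 a ha
  have h0U : (0 : ℂ) ∈ UD := by simp [UD]
  have hUo : IsOpen UD := isOpen_ball
  have hSat : DifferentiableAt ℂ (fun x => S a (x / 16)) 0 :=
    (hUN.dif 0 h0U).differentiableAt (hUo.mem_nhds h0U)
  have hr : deriv (fun x => φ (S a (x / 16))) 0 = deriv φ a * deriv (fun x => S a (x / 16)) 0 := by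
    have h1 : HasDerivAt φ (deriv φ a) ((fun x => S a (x / 16)) 0) := by
      change HasDerivAt φ (deriv φ a) (S a (0 / 16))
      rw [hS0]
      exact ((hφ a ha).differentiableAt (hUo.mem_nhds ha)).hasDerivAt
    exact (HasDerivAt.comp (0 : ℂ) h1 hSat.hasDerivAt).deriv
  have hSn : ‖deriv (fun x => S a (x / 16)) 0‖ = 1 / 16 * (1 - ‖a‖ ^ 2) := by
    have h1 : ‖a‖ < 1 := by simpa [UD] using ha
    have h2 : 0 < 1 - ‖a‖ ^ 2 := by nlinarith [norm_nonneg a]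
    unfold hd at hhd
    simp only [hS0] at hhd
    rw [div_eq_iff h2.ne'] at hhd
    exact hhd
  rw [hr, norm_mul, hSn]
  ring

/-- one branch. -/
theorem LAM_br (hHDI : HY.HDI_stmt) (hKO0 : V3.KO0_stmt) (n : ℕ) (c : ℂ) (φ H : ℂ → ℂ) (a x : ℂ)
    (t : ℕ) (κ C δ : ℝ)
    (hC : ∀ (G : ℂ → ℂ) (a : ℂ) (r : ℝ), 0 < r → DifferentiableOn ℂ G (ball a r) →
      InjOn G (ball a r) → ball (G a) (r * ‖deriv G a‖ / C) ⊆ G '' ball a r) (hC0 : 0 < C)
    (hφ : DifferentiableOn ℂ φ UD) (hφi : InjOn φ UD) (hH : UN H) (hH0 : φ (H 0) = x)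
    (ha : a ∈ UD) (hax : φ a = (fz n c)^[t] x)
    (hrel : ∀ u ∈ UD, (fz n c)^[t] (φ (H u)) = φ (S a (u / 16)))
    (hκ2 : κ ≤ ‖deriv φ a‖ * (1 - ‖a‖ ^ 2)) (hδ : δ ≤ κ / 16 / C) :
    UP.Br n c δ t x := by
  have h0U : (0 : ℂ) ∈ UD := by simp [UD]
  have hUo : IsOpen UD := isOpen_ball
  obtain ⟨hUN, hS0, _, _⟩ := hHDI.2.2 a ha
  set X : ℂ → ℂ := fun u => φ (S a (u / 16)) with hX
  have hXd : DifferentiableOn ℂ X UD := hφ.comp hUN.dif hUN.map
  have hXi : InjOn X UD := by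
    intro u hu v hv huv
    exact hUN.inj hu hv (hφi (hUN.map hu) (hUN.map hv) huv)
  have hX0 : X 0 = (fz n c)^[t] x := by
    change φ (S a (0 / 16)) = _
    rw [hS0, hax]
  have hXder : κ / 16 ≤ ‖deriv X 0‖ := by
    rw [hX, LAM_der hHDI φ hφ a ha]
    linarith
  obtain ⟨g, hg1, hg2⟩ := HY.CLO_inv hKO0 hXd hXi
  have hball : ball ((fz n c)^[t] x) δ ⊆ X '' UD := by
    have h1 := hC X 0 1 one_pos hXd hXi
    rw [hX0] at h1
    refine (ball_subset_ball ?_).trans h1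
    rw [one_mul]
    exact hδ.trans (div_le_div_of_nonneg_right hXder hC0.le)
  refine ⟨fun w => φ (H (g w)), ?_, ?_, ?_⟩
  · intro w hw
    obtain ⟨u, hu, rfl⟩ := hball hw
    have hgu := hg1 u hu
    have h1 : DifferentiableAt ℂ H (g (X u)) := by
      rw [hgu]
      exact (hH.dif u hu).differentiableAt (hUo.mem_nhds hu)
    have h2 : DifferentiableAt ℂ φ (H (g (X u))) := by
      rw [hgu]
      exact (hφ (H u) (hH.map hu)).differentiableAt (hUo.mem_nhds (hH.map hu))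
    have h3 : DifferentiableAt ℂ (fun w => H (g w)) (X u) := h1.comp (X u) (hg2 u hu)
    exact (DifferentiableAt.comp (X u) h2 h3).differentiableWithinAt
  · change φ (H (g ((fz n c)^[t] x))) = x
    rw [← hX0, hg1 0 h0U, hH0]
  · intro w hw
    obtain ⟨u, hu, rfl⟩ := hball hw
    change (fz n c)^[t] (φ (H (g (X u)))) = X u
    rw [hg1 u hu]
    exact hrel u hu

/-- LAM. -/
theorem LAM (hCLB : HY.CLB_stmt) (hSHR : HY.SHR_stmt) (hSGE : HY.SGE_stmt) (hVKB : HY.VKB_stmt)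
    (hHDI : HY.HDI_stmt) (hKO0 : V3.KO0_stmt) (hKO1 : V3.KO1_stmt)
    (hBRG : BR.BRG_stmt) (hLMZ : NR.LMZ_stmt) : LAM_stmt := by
  intro n hn c hc hcl ε hε
  obtain ⟨r, hr, hdis⟩ : ∃ r > (0 : ℝ), Disjoint (ball c r) (hyperbolic n) := by
    rw [Metric.mem_closure_iff] at hcl
    push Not at hcl
    obtain ⟨r, hr, h⟩ := hcl
    refine ⟨r, hr, ?_⟩
    rw [Set.disjoint_left]
    intro x hx hxh
    have h1 := h x hxh
    rw [mem_ball, dist_comm] at hx
    linarith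
  have hint : interior (filled n c) = ∅ := (hBRG n c r hn hr hc hdis).2.1
  obtain ⟨M, hM⟩ := hCLB n hn r hr
  obtain ⟨k, hk⟩ := hSHR n c hn hc hint ε hε ((1 / 2 : ℝ) ^ M) (by positivity)
  obtain ⟨φ, ψ, b, hSG⟩ := hSGE n c hn hc k
  obtain ⟨_, hz0, _, hKc, hKf, _, _, _, _, hKV, _, _⟩ := hVKB n c hn hc
  have hrm := hSG.rm
  have hKsub : filled n c ⊆ φ '' UD := by
    rw [hrm.img]
    exact hKV k
  obtain ⟨κ, hκ, hκ2⟩ := HY.GRO_kap hKO0 hKO1 φ hrm.dif hrm.inj (filled n c) hKc ⟨0, hz0⟩ hKsub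
  obtain ⟨C, hC1, hC⟩ := hKO1
  have hCp : 0 < C := by linarith
  refine hLMZ n c ε (min 1 (κ / 16 / C)) hn hε (lt_min one_pos (by positivity)) (min_le_left _ _)
    hint ?_
  intro t x hx
  have hiter : ∀ i : ℕ, (fz n c)^[i] x ∈ filled n c := by
    intro i
    induction i with
    | zero => exact hx.1
    | succ i ih =>
      rw [Function.iterate_succ_apply']
      exact hKf _ ih
  have hex : ∀ i : ℕ, ∃ y ∈ UD, φ y = (fz n c)^[i] x := fun i => hKsub (hiter i)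
  choose y hyU hyφ using hex
  have horb : Orb n c φ M y t := by
    refine ⟨fun i _ => hyU i, ?_, ?_⟩
    · intro i _
      rw [hyφ, hyφ, Function.iterate_succ_apply']
    · intro i _
      refine hk φ hrm (y i) (hyU i) ?_ ?_
      · rw [hyφ]; exact hiter i
      · rw [hyφ]; exact hx.2 i
  obtain ⟨H, hH, hH0, hrel, _⟩ := hM c hc hdis (VV n c k) φ ψ b hSG y t horb 0 (Nat.zero_le _)
  have hy0 : φ (H 0) = x := by rw [hH0, hyφ]; rfl
  exact LAM_br hHDI hKO0 n c φ H (y t) x t κ C _ hC hCp hrm.dif hrm.inj hH hy0 (hyU t) (hyφ t)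
    (by simpa using hrel) (hκ2 (y t) (hyU t) (by rw [hyφ]; exact hiter t)) (min_le_right _ _)

end NZ
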